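import Mathlib

/-!
# Jensen's formula for two radii (for HE-TLBg)
-/

set_option autoImplicit false

open MeasureTheory Set Metric Filter Topology

namespace Pool.Agent.H289.HE

theorem div_eq {f : ℂ → ℂ} (hf : Differentiable ℂ f) (c : ℂ) {R : ℝ} (hR : 0 < R) (u : ℂ) :
    ((MeromorphicOn.divisor f (closedBall c R) u : ℤ) : ℝ) =
      if ‖u - c‖ ≤ R then (analyticOrderNatAt f u : ℝ) else 0 := by
  have han : AnalyticOnNhd ℂ f (closedBall c R) := fun z _ => hf.analyticAt z
  split_ifs with h
  · have hu : u ∈ closedBall c R := by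
      rw [mem_closedBall, dist_eq_norm]
      exact h
    rw [MeromorphicOn.AnalyticOnNhd.divisor_apply han hu]
    unfold analyticOrderNatAt
    cases analyticOrderAt f u using ENat.recTopCoe with
    | top => simp
    | coe n => simp
  · have hu : u ∉ closedBall c R := by
      rw [mem_closedBall, dist_eq_norm]
      exact h
    rw [Function.locallyFinsuppWithin.apply_eq_zero_of_notMem _ hu]
    norm_num

theorem ord_zero {f : ℂ → ℂ} (hf : Differentiable ℂ f) {u : ℂ} (hu : f u ≠ 0) :
    analyticOrderNatAt f u = 0 := by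
  unfold analyticOrderNatAt
  rw [(hf.analyticAt u).analyticOrderAt_eq_zero.2 hu]
  rfl

theorem avg_eq {f : ℂ → ℂ} (hf : Differentiable ℂ f) (c : ℂ) {R : ℝ} (hR : 0 < R)
    (Z : Finset ℂ) (hZ : ∀ u, ‖u - c‖ ≤ R → f u = 0 → u ∈ Z) :
    Real.circleAverage (fun z => Real.log ‖f z‖) c R =
      ∑ u ∈ Z, (if ‖u - c‖ ≤ R then (analyticOrderNatAt f u : ℝ) else 0) *
        Real.log (R * ‖c - u‖⁻¹) + (analyticOrderNatAt f c : ℝ) * Real.log R +
        Real.log ‖meromorphicTrailingCoeffAt f c‖ := by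
  have habs : |R| = R := abs_of_pos hR
  have han : AnalyticOnNhd ℂ f (closedBall c |R|) := fun z _ => hf.analyticAt z
  have h1 := MeromorphicOn.circleAverage_log_norm (c := c) (R := R) (f := f) hR.ne'
    han.meromorphicOn
  rw [habs] at h1
  rw [h1, div_eq hf c hR c, sub_self, norm_zero, if_pos hR.le]
  congr 2
  rw [finsum_eq_sum_of_support_subset (s := Z)]
  · refine Finset.sum_congr rfl fun u _ => ?_
    rw [div_eq hf c hR u]
  · intro u hu
    by_contra hcon
    apply hu
    change ((MeromorphicOn.divisor f (closedBall c R) u : ℤ) : ℝ) * _ = 0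
    rw [div_eq hf c hR u]
    split_ifs with h
    · rw [ord_zero hf (fun h0 => hcon (hZ u h h0))]
      norm_num
    · rw [zero_mul]

theorem two_radii {f : ℂ → ℂ} (hf : Differentiable ℂ f) (c : ℂ) {R1 R2 : ℝ} (h1 : 0 < R1)
    (h12 : R1 ≤ R2) (Z : Finset ℂ) (hZ : ∀ u, ‖u - c‖ ≤ R2 → f u = 0 → u ∈ Z) :
    Real.circleAverage (fun z => Real.log ‖f z‖) c R2 -
      Real.circleAverage (fun z => Real.log ‖f z‖) c R1 ≤
      (∑ u ∈ Z, (analyticOrderNatAt f u : ℝ)) * (Real.log R2 - Real.log R1) := by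
  have h2 : 0 < R2 := by linarith
  have hl : Real.log R1 ≤ Real.log R2 := Real.log_le_log h1 h12
  have hZ' : ∀ u, ‖u - c‖ ≤ R2 → f u = 0 → u ∈ insert c Z := fun u hu h0 =>
    Finset.mem_insert_of_mem (hZ u hu h0)
  rw [avg_eq hf c h2 (insert c Z) hZ', avg_eq hf c h1 (insert c Z)
    (fun u hu h0 => hZ' u (hu.trans h12) h0)]
  have e1 : (∑ u ∈ Z, (analyticOrderNatAt f u : ℝ)) =
      ∑ u ∈ insert c Z, (analyticOrderNatAt f u : ℝ) := by
    by_cases hc : c ∈ Z
    · rw [Finset.insert_eq_of_mem hc]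
    · rw [Finset.sum_insert hc, ord_zero hf (fun h0 => hc (hZ c (by simp [h2.le]) h0))]
      norm_num
  rw [e1]
  have e2 : (analyticOrderNatAt f c : ℝ) * (Real.log R2 - Real.log R1) =
      ∑ u ∈ insert c Z, (if u = c then (analyticOrderNatAt f c : ℝ) *
        (Real.log R2 - Real.log R1) else 0) := by
    rw [Finset.sum_ite_eq' (insert c Z) c, if_pos (Finset.mem_insert_self c Z)]
  have e3 : ∑ u ∈ insert c Z, (if ‖u - c‖ ≤ R2 then (analyticOrderNatAt f u : ℝ) else 0) *
        Real.log (R2 * ‖c - u‖⁻¹) - ∑ u ∈ insert c Z,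
        (if ‖u - c‖ ≤ R1 then (analyticOrderNatAt f u : ℝ) else 0) *
        Real.log (R1 * ‖c - u‖⁻¹) + (analyticOrderNatAt f c : ℝ) *
        (Real.log R2 - Real.log R1) ≤
      (∑ u ∈ insert c Z, (analyticOrderNatAt f u : ℝ)) * (Real.log R2 - Real.log R1) := by
    rw [e2, ← Finset.sum_sub_distrib, ← Finset.sum_add_distrib, Finset.sum_mul]
    refine Finset.sum_le_sum fun u _ => ?_
    have ho : (0 : ℝ) ≤ (analyticOrderNatAt f u : ℝ) := Nat.cast_nonneg _
    by_cases huc : u = c
    · subst huc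
      simp
    · have hn : 0 < ‖c - u‖ := norm_pos_iff.2 (sub_ne_zero.2 (Ne.symm huc))
      have l1 : Real.log (R1 * ‖c - u‖⁻¹) = Real.log R1 - Real.log ‖c - u‖ := by
        rw [Real.log_mul h1.ne' (inv_ne_zero hn.ne'), Real.log_inv]
        ring
      have l2 : Real.log (R2 * ‖c - u‖⁻¹) = Real.log R2 - Real.log ‖c - u‖ := by
        rw [Real.log_mul h2.ne' (inv_ne_zero hn.ne'), Real.log_inv]
        ring
      rw [if_neg huc, add_zero, l1, l2, norm_sub_rev u c]
      by_cases hu1 : ‖c - u‖ ≤ R1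
      · rw [if_pos hu1, if_pos (hu1.trans h12)]
        apply le_of_eq
        ring
      · rw [if_neg hu1, zero_mul, sub_zero]
        push Not at hu1
        by_cases hu2 : ‖c - u‖ ≤ R2
        · rw [if_pos hu2]
          have hl3 : Real.log R1 ≤ Real.log ‖c - u‖ := Real.log_le_log h1 hu1.le
          exact mul_le_mul_of_nonneg_left (by linarith) ho
        · rw [if_neg hu2, zero_mul]
          exact mul_nonneg ho (by linarith)
  linarith

theorem log_le_avg {f : ℂ → ℂ} (hf : Differentiable ℂ f) (a : ℂ) (ha : f a ≠ 0) {s : ℝ}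
    (hs : 0 < s) : Real.log ‖f a‖ ≤ Real.circleAverage (fun z => Real.log ‖f z‖) a s := by
  have habs : |s| = s := abs_of_pos hs
  have han : AnalyticOnNhd ℂ f (closedBall a |s|) := fun z _ => hf.analyticAt z
  rw [AnalyticOnNhd.circleAverage_log_norm hs.ne' han ha, habs]
  have h0 : 0 ≤ ∑ᶠ u, ((MeromorphicOn.divisor f (closedBall a s) u : ℤ) : ℝ) *
      Real.log (s * ‖a - u‖⁻¹) := by
    refine finsum_nonneg fun u => ?_
    rw [div_eq hf a hs u]
    split_ifs with h
    · refine mul_nonneg (Nat.cast_nonneg _) ?_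
      by_cases hua : u = a
      · rw [hua, sub_self, norm_zero, inv_zero, mul_zero, Real.log_zero]
      · have hn : 0 < ‖a - u‖ := norm_pos_iff.2 (sub_ne_zero.2 (Ne.symm hua))
        apply Real.log_nonneg
        rw [← div_eq_mul_inv, one_le_div hn, norm_sub_rev]
        exact h
    · rw [zero_mul]
  linarith

theorem circ_int {f : ℂ → ℂ} (hf : Differentiable ℂ f) (c : ℂ) (R : ℝ) :
    CircleIntegrable (fun z => Real.log ‖f z‖) c R := by
  have han : AnalyticOnNhd ℂ f (sphere c |R|) := fun z _ => hf.analyticAt z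
  exact han.meromorphicOn.circleIntegrable_log_norm

lemma integral_abs_cos : ∫ x in (0 : ℝ)..(2 * Real.pi), |Real.cos x| = 4 := by
  have hpi := Real.pi_pos
  have hi : ∀ a b : ℝ, IntervalIntegrable (fun x => |Real.cos x|) volume a b := fun a b =>
    (Real.continuous_cos.abs).intervalIntegrable a b
  have e1 : ∫ x in (0 : ℝ)..(Real.pi / 2), |Real.cos x| = 1 := by
    have : ∫ x in (0 : ℝ)..(Real.pi / 2), |Real.cos x| =
        ∫ x in (0 : ℝ)..(Real.pi / 2), Real.cos x := by
      refine intervalIntegral.integral_congr fun x hx => ?_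
      rw [uIcc_of_le (by linarith)] at hx
      exact abs_of_nonneg (Real.cos_nonneg_of_mem_Icc ⟨by linarith [hx.1], hx.2⟩)
    rw [this, integral_cos, Real.sin_pi_div_two, Real.sin_zero, sub_zero]
  have e2 : ∫ x in (Real.pi / 2)..(Real.pi + Real.pi / 2), |Real.cos x| = 2 := by
    have : ∫ x in (Real.pi / 2)..(Real.pi + Real.pi / 2), |Real.cos x| =
        ∫ x in (Real.pi / 2)..(Real.pi + Real.pi / 2), -Real.cos x := by
      refine intervalIntegral.integral_congr fun x hx => ?_
      rw [uIcc_of_le (by linarith)] at hx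
      exact abs_of_nonpos (Real.cos_nonpos_of_pi_div_two_le_of_le hx.1 hx.2)
    rw [this, intervalIntegral.integral_neg, integral_cos, Real.sin_pi_div_two, add_comm Real.pi,
      Real.sin_add_pi, Real.sin_pi_div_two]
    norm_num
  have e3 : ∫ x in (Real.pi + Real.pi / 2)..(2 * Real.pi), |Real.cos x| = 1 := by
    have : ∫ x in (Real.pi + Real.pi / 2)..(2 * Real.pi), |Real.cos x| =
        ∫ x in (Real.pi + Real.pi / 2)..(2 * Real.pi), Real.cos x := by
      refine intervalIntegral.integral_congr fun x hx => ?_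
      rw [uIcc_of_le (by linarith)] at hx
      refine abs_of_nonneg ?_
      have h1 : Real.cos x = Real.cos (x - 2 * Real.pi) := (Real.cos_sub_two_pi x).symm
      rw [h1]
      exact Real.cos_nonneg_of_mem_Icc ⟨by linarith [hx.1], by linarith [hx.2]⟩
    rw [this, integral_cos, Real.sin_two_pi, add_comm Real.pi, Real.sin_add_pi,
      Real.sin_pi_div_two]
    norm_num
  rw [← intervalIntegral.integral_add_adjacent_intervals (hi 0 (Real.pi / 2)) (hi _ _),
    ← intervalIntegral.integral_add_adjacent_intervals (hi (Real.pi / 2) (Real.pi + Real.pi / 2))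
      (hi _ _), e1, e2, e3]
  norm_num

/-- the majorant -/
noncomputable def MM (L : ℝ) (z : ℂ) : ℝ := L * (|z.re| / 2 + 1)

theorem MM_cont (L : ℝ) : Continuous (MM L) := by
  unfold MM
  fun_prop

theorem MM_int (L : ℝ) (c : ℂ) (R : ℝ) : CircleIntegrable (MM L) c R :=
  (MM_cont L).continuousOn.circleIntegrable'

theorem MM_avg (L : ℝ) (c : ℂ) (hc : c.re = 0) {R : ℝ} (hR : 0 < R) :
    Real.circleAverage (MM L) c R = L * (R / Real.pi + 1) := by
  have hpi := Real.pi_pos
  rw [Real.circleAverage_def, smul_eq_mul]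
  have h1 : ∀ θ : ℝ, MM L (circleMap c R θ) = L * R / 2 * |Real.cos θ| + L := by
    intro θ
    have e : (circleMap c R θ).re = R * Real.cos θ := by
      rw [circleMap, Complex.add_re, Complex.re_ofReal_mul, Complex.exp_ofReal_mul_I_re, hc,
        zero_add]
    unfold MM
    rw [e, abs_mul, abs_of_pos hR]
    ring
  simp only [h1]
  rw [intervalIntegral.integral_add (Continuous.intervalIntegrable (by fun_prop) _ _)
    intervalIntegrable_const, intervalIntegral.integral_const_mul, integral_abs_cos,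
    intervalIntegral.integral_const, sub_zero, smul_eq_mul]
  field_simp
  ring

theorem MM_avg_le {L : ℝ} (hL : 0 ≤ L) (a : ℂ) {s : ℝ} (hs : 0 ≤ s) :
    Real.circleAverage (MM L) a s ≤ MM L a + L * s / 2 := by
  refine Real.circleAverage_mono_on_of_le_circle (MM_int L a s) ?_
  intro z hz
  rw [abs_of_nonneg hs, mem_sphere, dist_eq_norm] at hz
  unfold MM
  have h1 : |z.re| ≤ |a.re| + s := by
    have h2 : |(z - a).re| ≤ ‖z - a‖ := Complex.abs_re_le_norm _
    rw [hz, Complex.sub_re] at h2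
    have h3 := abs_add_le (z.re - a.re) a.re
    rw [sub_add_cancel] at h3
    linarith
  nlinarith

end Pool.Agent.H289.HE
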