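import Pool.Agent.H289.HE.Pol
import Pool.Agent.H289.HE.Jen

/-!
# One disc (for HE-TLBg)
-/

set_option autoImplicit false

open MeasureTheory Set Metric Filter Topology

namespace Pool.Agent.H289.HE

theorem one_disc {f : ℂ → ℂ} (hf : Differentiable ℂ f) (c : ℂ) (hc : c.re = 0) (L : ℝ)
    (hL : 0 < L) (R a : ℝ) (hR : 1 ≤ R) (hRa : R ≤ a)
    (hU : ∀ z, ‖z - c‖ ≤ a + 9 → Real.log ‖f z‖ ≤ MM L z)
    (hLo : ∀ p, ‖p - c‖ < a + 2 → ∃ q, ‖q - p‖ ≤ 3 ∧ f q ≠ 0 ∧ MM L q - 2 * L ≤ Real.log ‖f q‖)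
    (Z : Finset ℂ) (hZ : ∀ u, ‖u - c‖ ≤ a + 1 → f u = 0 → u ∈ Z) :
    L * ((a - R) / Real.pi - 1156) ≤
      (∑ u ∈ Z, (analyticOrderNatAt f u : ℝ)) * (Real.log (a + 1) - Real.log R) := by
  have hpi := Real.pi_pos
  have hfm : Measurable (fun z => Real.log ‖f z‖) :=
    Real.measurable_log.comp (hf.continuous.measurable.norm)
  have hvm : Measurable (MM L - fun z => Real.log ‖f z‖) := (MM_cont L).measurable.sub hfm
  have hvi : ∀ (b : ℂ) (s : ℝ), CircleIntegrable (MM L - fun z => Real.log ‖f z‖) b s :=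
    fun b s => (MM_int L b s).sub (circ_int hf b s)
  have hva : ∀ (b : ℂ) (s : ℝ), Real.circleAverage (MM L - fun z => Real.log ‖f z‖) b s =
      Real.circleAverage (MM L) b s - Real.circleAverage (fun z => Real.log ‖f z‖) b s :=
    fun b s => Real.circleAverage_sub (MM_int L b s) (circ_int hf b s)
  have hv0 : ∀ z, ‖z - c‖ ≤ a + 9 → 0 ≤ (MM L - fun z => Real.log ‖f z‖) z := by
    intro z hz
    have := hU z hz
    change 0 ≤ MM L z - Real.log ‖f z‖
    linarith
  obtain ⟨r, hr1, hr2, hr3⟩ := good_r (MM L - fun z => Real.log ‖f z‖) hvm c a (by linarith)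
    (4 * L) (by linarith) (fun z hz => hv0 z (by linarith)) (fun s => hvi c s) (by
      intro p hp
      obtain ⟨q, hq1, hq2, hq3⟩ := hLo p hp
      refine disc _ hvm q p hq1 (4 * L) (by linarith) ?_ (fun s _ _ => hvi q s) ?_
      · intro z hz
        apply hv0
        have e : z - c = (z - q) + (q - p) + (p - c) := by ring
        rw [e]
        have h1 := norm_add_le ((z - q) + (q - p)) (p - c)
        have h2 := norm_add_le (z - q) (q - p)
        linarith
      · intro s hs0 hs4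
        rw [hva]
        have h1 := MM_avg_le hL.le q hs0.le
        have h2 := log_le_avg hf q hq2 hs0
        nlinarith)
  rw [hva, MM_avg L c hc (by linarith)] at hr3
  have h1 : Real.circleAverage (fun z => Real.log ‖f z‖) c R ≤ L * (R / Real.pi + 1) := by
    rw [← MM_avg L c hc (by linarith)]
    refine Real.circleAverage_mono (circ_int hf c R) (MM_int L c R) fun z hz => ?_
    rw [abs_of_pos (by linarith), mem_sphere, dist_eq_norm] at hz
    exact hU z (by linarith)
  have h2 := two_radii hf c (show 0 < R by linarith) (hRa.trans hr1) Z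
    (fun u hu h0 => hZ u (hu.trans hr2) h0)
  have h3 : (∑ u ∈ Z, (analyticOrderNatAt f u : ℝ)) * (Real.log r - Real.log R) ≤
      (∑ u ∈ Z, (analyticOrderNatAt f u : ℝ)) * (Real.log (a + 1) - Real.log R) := by
    apply mul_le_mul_of_nonneg_left
    · have := Real.log_le_log (show 0 < r by linarith) hr2
      linarith
    · exact Finset.sum_nonneg fun _ _ => Nat.cast_nonneg _
  have h4 : L * (a / Real.pi) ≤ L * (r / Real.pi) := by
    apply mul_le_mul_of_nonneg_left _ hL.le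
    exact div_le_div_of_nonneg_right hr1 hpi.le
  have h5 : L * ((a - R) / Real.pi - 1156) =
      L * (a / Real.pi) - L * (R / Real.pi) - 1156 * L := by
    rw [sub_div]
    ring
  have h6 : L * (r / Real.pi + 1) = L * (r / Real.pi) + L := by ring
  have h7 : L * (R / Real.pi + 1) = L * (R / Real.pi) + L := by ring
  rw [h6] at hr3
  rw [h7] at h1
  rw [h5]
  linarith

/-- the choice of the parameters -/
theorem params (ε : ℝ) (h0 : 0 < ε) (h1 : ε ≤ 1) (L X : ℝ) (hL : 0 < L) (hX : 0 ≤ X)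
    (h : L * (((1 + ε) * (4000 / ε ^ 3) - 4000 / ε ^ 3) / Real.pi - 1156) ≤
      X * (Real.log ((1 + ε) * (4000 / ε ^ 3) + 1) - Real.log (4000 / ε ^ 3))) :
    ((1 + ε) * (4000 / ε ^ 3) + 2) / Real.pi * (1 - ε) * L ≤ X := by
  have hpi := Real.pi_pos
  have hpi2 : Real.pi < 3.15 := Real.pi_lt_d2
  have hε3 : 0 < ε ^ 3 := by positivity
  have hε31 : ε ^ 3 ≤ 1 := pow_le_one₀ h0.le h1
  have hRε : 4000 / ε ^ 3 * ε ^ 3 = 4000 := div_mul_cancel₀ _ hε3.ne'
  have hR1 : 4000 ≤ 4000 / ε ^ 3 := by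
    rw [le_div_iff₀ hε3]
    linarith
  generalize 4000 / ε ^ 3 = R at *
  have hR0 : 0 < R := by linarith
  have hlog : Real.log ((1 + ε) * R + 1) - Real.log R ≤ ε + 1 / R := by
    rw [← Real.log_div (by positivity) hR0.ne']
    have h2 := Real.log_le_sub_one_of_pos (show 0 < ((1 + ε) * R + 1) / R by positivity)
    have h3 : ((1 + ε) * R + 1) / R - 1 = ε + 1 / R := by
      field_simp
      ring
    linarith
  have h2 : L * (((1 + ε) * R - R) / Real.pi - 1156) ≤ X * (ε + 1 / R) :=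
    h.trans (mul_le_mul_of_nonneg_left hlog hX)
  have hpos : 0 < ε + 1 / R := by positivity
  refine le_of_mul_le_mul_right (le_trans ?_ h2) hpos
  have h3 : ((1 + ε) * R + 2) / Real.pi * (1 - ε) * L * (ε + 1 / R) =
      L * ((((1 + ε) * R + 2) * (1 - ε) * (ε + 1 / R)) / Real.pi) := by
    ring
  rw [h3]
  apply mul_le_mul_of_nonneg_left _ hL.le
  have h4 : ((1 + ε) * R - R) / Real.pi - 1156 = (ε * R - 1156 * Real.pi) / Real.pi := by
    field_simp
    ring
  rw [h4]
  apply div_le_div_of_nonneg_right _ hpi.le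
  have h5 : ((1 + ε) * R + 2) * (1 - ε) * (ε + 1 / R) =
      ε * R - R * ε ^ 3 + (1 - ε ^ 2) + 2 * (1 - ε) * ε + 2 * (1 - ε) * (1 / R) := by
    field_simp
    ring
  have h6 : 1 / R ≤ 1 := by
    rw [div_le_one hR0]
    linarith
  have h7 : 2 * (1 - ε) * (1 / R) ≤ 2 * (1 - ε) * 1 :=
    mul_le_mul_of_nonneg_left h6 (by linarith)
  rw [h5, hRε]
  nlinarith

theorem fin_zeros {f : ℂ → ℂ} (hf : Differentiable ℂ f) (q : ℂ) (hq : f q ≠ 0) (c : ℂ) (r : ℝ) :
    {u : ℂ | ‖u - c‖ ≤ r ∧ f u = 0}.Finite := by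
  by_contra hinf
  have hinf' : {u : ℂ | ‖u - c‖ ≤ r ∧ f u = 0}.Infinite := hinf
  obtain ⟨x, -, hx⟩ := hinf'.exists_accPt_of_subset_isCompact (isCompact_closedBall c r) (by
    intro u hu
    rw [mem_closedBall, dist_eq_norm]
    exact hu.1)
  have h1 : ∃ᶠ z in 𝓝[≠] x, f z = 0 := by
    rw [accPt_iff_frequently_nhdsNE] at hx
    exact hx.mono fun z hz => hz.2
  have h2 : EqOn f 0 univ := AnalyticOnNhd.eqOn_zero_of_preconnected_of_frequently_eq_zero
    (fun z _ => hf.analyticAt z) isPreconnected_univ (mem_univ x) h1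
  exact hq (h2 (mem_univ q))

theorem ord_const_mul {f : ℂ → ℂ} (hf : Differentiable ℂ f) (k : ℂ) (hk : k ≠ 0) (u : ℂ) :
    analyticOrderNatAt (fun z => k * f z) u = analyticOrderNatAt f u := by
  unfold analyticOrderNatAt
  have h1 : analyticOrderAt (fun z => k * f z) u = analyticOrderAt f u := by
    have h2 : (fun z => k * f z) = (fun _ => k) * f := rfl
    rw [h2, analyticOrderAt_mul analyticAt_const (hf.analyticAt u),
      (analyticAt_const (𝕜 := ℂ) (v := k) (x := u)).analyticOrderAt_eq_zero.2 hk, zero_add]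
  rw [h1]

end Pool.Agent.H289.HE
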