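import Mathlib

/-!
# Polar coordinates, circle averages and plane integrals (for HE-TLBg)
-/

set_option autoImplicit false

open MeasureTheory Set Metric Filter Topology
open scoped ENNReal

namespace Pool.Agent.H289.HE

/-- polar coordinates around `c` -/
theorem polar (F : ℂ → ℝ≥0∞) (hF : Measurable F) (c : ℂ) :
    ∫⁻ z, F z = ∫⁻ r in Ioi (0 : ℝ), ENNReal.ofReal r *
      ∫⁻ θ in Ioo (-Real.pi) Real.pi, F (circleMap c r θ) := by
  rw [← lintegral_add_right_eq_self F c, ← Complex.lintegral_comp_polarCoord_symm,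
    polarCoord_target]
  have h1 : (volume : Measure (ℝ × ℝ)).restrict (Ioi (0 : ℝ) ×ˢ Ioo (-Real.pi) Real.pi) =
      (volume.restrict (Ioi (0 : ℝ))).prod (volume.restrict (Ioo (-Real.pi) Real.pi)) := by
    rw [Measure.volume_eq_prod, Measure.prod_restrict]
  have e : ∀ p : ℝ × ℝ, Complex.polarCoord.symm p + c = circleMap c p.1 p.2 := by
    intro p
    rw [Complex.polarCoord_symm_apply, circleMap, Complex.exp_mul_I]
    push_cast
    ring
  have hm : Measurable (fun p : ℝ × ℝ => circleMap c p.1 p.2) := by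
    unfold circleMap
    fun_prop
  simp only [e, smul_eq_mul]
  rw [h1, lintegral_prod _ (by
    apply Measurable.aemeasurable
    exact (ENNReal.measurable_ofReal.comp measurable_fst).mul (hF.comp hm))]
  refine lintegral_congr fun r => ?_
  have hm2 : Measurable (fun θ : ℝ => F (circleMap c r θ)) :=
    hF.comp (hm.comp measurable_prodMk_left)
  exact lintegral_const_mul (ENNReal.ofReal r) hm2

/-- plane integrals over sets defined by the distance from `c` -/
theorem polar_set (F : ℂ → ℝ≥0∞) (hF : Measurable F) (c : ℂ) (J : Set ℝ) (hJ : MeasurableSet J)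
    (hJ0 : ∀ r ∈ J, 0 < r) :
    ∫⁻ z in {z : ℂ | ‖z - c‖ ∈ J}, F z = ∫⁻ r in J, ENNReal.ofReal r *
      ∫⁻ θ in Ioo (-Real.pi) Real.pi, F (circleMap c r θ) := by
  have hm : Measurable (fun z : ℂ => ‖z - c‖) := by fun_prop
  have hS : MeasurableSet {z : ℂ | ‖z - c‖ ∈ J} := hm hJ
  rw [← lintegral_indicator hS, polar _ (hF.indicator hS) c]
  have h1 : ∫⁻ r in J, ENNReal.ofReal r *
      ∫⁻ θ in Ioo (-Real.pi) Real.pi, F (circleMap c r θ) =
      ∫⁻ r in Ioi (0 : ℝ), J.indicator (fun r => ENNReal.ofReal r *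
      ∫⁻ θ in Ioo (-Real.pi) Real.pi, F (circleMap c r θ)) r := by
    have h3 : J ∩ Ioi (0 : ℝ) = J := inter_eq_left.2 (fun r hr => hJ0 r hr)
    rw [lintegral_indicator hJ, Measure.restrict_restrict hJ, h3]
  rw [h1]
  refine setLIntegral_congr_fun measurableSet_Ioi fun r hr => ?_
  have hr0 : (0 : ℝ) < r := hr
  by_cases hrJ : r ∈ J
  · rw [indicator_of_mem hrJ]
    congr 1
    refine lintegral_congr fun θ => ?_
    rw [indicator_of_mem]
    change ‖circleMap c r θ - c‖ ∈ J
    rw [circleMap_sub_center, norm_circleMap_zero, abs_of_pos hr0]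
    exact hrJ
  · rw [indicator_of_notMem hrJ]
    have h2 : ∀ θ, {z : ℂ | ‖z - c‖ ∈ J}.indicator F (circleMap c r θ) = 0 := by
      intro θ
      rw [indicator_of_notMem]
      change ¬ ‖circleMap c r θ - c‖ ∈ J
      rw [circleMap_sub_center, norm_circleMap_zero, abs_of_pos hr0]
      exact hrJ
    simp only [h2, lintegral_zero, mul_zero]

/-- circle averages of nonnegative functions -/
theorem circ_lint (v : ℂ → ℝ) (c : ℂ) (r : ℝ) (hi : CircleIntegrable v c r)
    (h0 : ∀ z ∈ sphere c |r|, 0 ≤ v z) :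
    ∫⁻ θ in Ioo (-Real.pi) Real.pi, ENNReal.ofReal (v (circleMap c r θ)) =
      ENNReal.ofReal (2 * Real.pi * Real.circleAverage v c r) := by
  have hpi := Real.pi_pos
  have hper : Function.Periodic (fun θ => v (circleMap c r θ)) (2 * Real.pi) := fun x => by
    simp [periodic_circleMap c r x]
  have hii : IntervalIntegrable (fun θ => v (circleMap c r θ)) volume (-Real.pi) Real.pi := by
    have h1 : IntervalIntegrable (fun θ => v (circleMap c r θ)) volume 0 (0 + 2 * Real.pi) := by
      rw [zero_add]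
      exact hi
    exact hper.intervalIntegrable (by positivity) h1 _ _
  rw [setLIntegral_congr Ioo_ae_eq_Ioc, ← ofReal_integral_eq_lintegral_ofReal
    ((intervalIntegrable_iff_integrableOn_Ioc_of_le (by linarith)).1 hii)
    (Eventually.of_forall fun θ => h0 _ (by simp))]
  congr 1
  rw [← intervalIntegral.integral_of_le (by linarith), Real.circleAverage_def, smul_eq_mul]
  have h2 := hper.intervalIntegral_add_eq (-Real.pi) 0
  rw [zero_add, show -Real.pi + 2 * Real.pi = Real.pi by ring] at h2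
  rw [h2]
  field_simp

/-- from a local bound to a bound on a region -/
theorem loc_glob (F : ℂ → ℝ≥0∞) (hF : Measurable F) (N N' : Set ℂ) (hN : MeasurableSet N)
    (hN' : MeasurableSet N') (h : ∀ z ∈ N, ∀ p : ℂ, ‖p - z‖ < 1 → p ∈ N') (K : ℝ≥0∞)
    (hK : ∀ p ∈ N', ∫⁻ z in ball p 1, F z ≤ K) :
    ENNReal.ofReal Real.pi * ∫⁻ z in N, F z ≤ K * volume N' := by
  have hv : ∀ z : ℂ, ∫⁻ p, (ball z 1).indicator (fun _ => (1 : ℝ≥0∞)) p =
      ENNReal.ofReal Real.pi := by
    intro z
    rw [lintegral_indicator measurableSet_ball, lintegral_one, Measure.restrict_apply_univ,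
      Complex.volume_ball, ENNReal.ofReal_one, one_pow, one_mul]
    exact (ENNReal.ofReal_eq_coe_nnreal Real.pi_pos.le).symm
  have hmeas : Measurable (fun q : ℂ × ℂ => N.indicator F q.1 *
      (ball q.1 1).indicator (fun _ => (1 : ℝ≥0∞)) q.2) := by
    refine ((hF.indicator hN).comp measurable_fst).mul ?_
    have e : (fun q : ℂ × ℂ => (ball q.1 1).indicator (fun _ => (1 : ℝ≥0∞)) q.2) =
        {q : ℂ × ℂ | dist q.2 q.1 < 1}.indicator (fun _ => (1 : ℝ≥0∞)) := by
      funext q
      by_cases hq : dist q.2 q.1 < 1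
      · rw [indicator_of_mem (show q.2 ∈ ball q.1 1 from hq),
          indicator_of_mem (show q ∈ {q : ℂ × ℂ | dist q.2 q.1 < 1} from hq)]
      · rw [indicator_of_notMem (show ¬ q.2 ∈ ball q.1 1 from hq),
          indicator_of_notMem (show ¬ q ∈ {q : ℂ × ℂ | dist q.2 q.1 < 1} from hq)]
    rw [e]
    refine measurable_const.indicator ?_
    exact measurableSet_lt (measurable_snd.dist measurable_fst) measurable_const
  have h1 : ENNReal.ofReal Real.pi * ∫⁻ z in N, F z =
      ∫⁻ z, ∫⁻ p, N.indicator F z * (ball z 1).indicator (fun _ => (1 : ℝ≥0∞)) p := by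
    rw [← lintegral_indicator hN, ← lintegral_const_mul _ (hF.indicator hN)]
    refine lintegral_congr fun z => ?_
    rw [lintegral_const_mul _ (measurable_const.indicator measurableSet_ball), hv, mul_comm]
  rw [h1, lintegral_lintegral_swap hmeas.aemeasurable]
  have h2 : K * volume N' = ∫⁻ p, N'.indicator (fun _ => K) p := by
    rw [lintegral_indicator hN', lintegral_const, Measure.restrict_apply_univ]
  rw [h2]
  refine lintegral_mono fun p => ?_
  by_cases hp : p ∈ N'
  · rw [indicator_of_mem hp]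
    refine le_trans ?_ (hK p hp)
    rw [← lintegral_indicator measurableSet_ball]
    refine lintegral_mono fun z => ?_
    by_cases hz : z ∈ N
    · rw [indicator_of_mem hz]
      by_cases hpz : dist p z < 1
      · rw [indicator_of_mem (show p ∈ ball z 1 from hpz), mul_one, indicator_of_mem]
        rw [mem_ball, dist_comm]
        exact hpz
      · rw [indicator_of_notMem (show ¬ p ∈ ball z 1 from hpz), mul_zero]
        exact bot_le
    · rw [indicator_of_notMem hz, zero_mul]
      exact bot_le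
  · rw [indicator_of_notMem hp, nonpos_iff_eq_zero, lintegral_eq_zero_of_ae_eq_zero]
    refine Eventually.of_forall fun z => ?_
    by_cases hz : z ∈ N
    · have hpz : ¬ dist p z < 1 := fun hh => hp (h z hz p (by rwa [dist_eq_norm] at hh))
      change N.indicator F z * (ball z 1).indicator (fun _ => (1 : ℝ≥0∞)) p = 0
      rw [indicator_of_notMem (show ¬ p ∈ ball z 1 from hpz), mul_zero]
    · change N.indicator F z * (ball z 1).indicator (fun _ => (1 : ℝ≥0∞)) p = 0
      rw [indicator_of_notMem hz, zero_mul]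

/-- the volume of an annulus -/
theorem vol_ann (c : ℂ) (a : ℝ) (ha : 0 ≤ a) :
    volume {z : ℂ | ‖z - c‖ ∈ Ioo a (a + 3)} ≤ ENNReal.ofReal (6 * Real.pi * (a + 3)) := by
  have hpi := Real.pi_pos
  have h1 := polar_set (fun _ => 1) measurable_const c (Ioo a (a + 3)) measurableSet_Ioo
    (fun r hr => lt_of_le_of_lt ha hr.1)
  rw [lintegral_one, Measure.restrict_apply_univ] at h1
  rw [h1]
  have h2 : ∀ r ∈ Ioo a (a + 3), ENNReal.ofReal r *
      ∫⁻ θ in Ioo (-Real.pi) Real.pi, (1 : ℝ≥0∞) ≤ ENNReal.ofReal ((a + 3) * (2 * Real.pi)) := by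
    intro r hr
    rw [lintegral_one, Measure.restrict_apply_univ, Real.volume_Ioo,
      ← ENNReal.ofReal_mul (by linarith [hr.1])]
    apply ENNReal.ofReal_le_ofReal
    rw [show Real.pi - -Real.pi = 2 * Real.pi by ring]
    exact mul_le_mul_of_nonneg_right hr.2.le (by positivity)
  refine (setLIntegral_mono measurable_const h2).trans ?_
  rw [lintegral_const, Measure.restrict_apply_univ, Real.volume_Ioo,
    ← ENNReal.ofReal_mul (by positivity)]
  apply ENNReal.ofReal_le_ofReal
  nlinarith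

/-- a local bound from circle averages -/
theorem disc (v : ℂ → ℝ) (hv : Measurable v) (a p : ℂ) (hap : ‖a - p‖ ≤ 3) (B : ℝ) (hB : 0 ≤ B)
    (h0 : ∀ z, ‖z - a‖ < 4 → 0 ≤ v z) (hi : ∀ s, 0 < s → s < 4 → CircleIntegrable v a s)
    (h : ∀ s, 0 < s → s < 4 → Real.circleAverage v a s ≤ B) :
    ∫⁻ z in ball p 1, ENNReal.ofReal (v z) ≤ ENNReal.ofReal (32 * Real.pi * B) := by
  have hpi := Real.pi_pos
  have hsub : ball p 1 ⊆ {z : ℂ | ‖z - a‖ ∈ Ioo (0 : ℝ) 4} ∪ {a} := by
    intro z hz
    by_cases hza : z = a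
    · right
      exact hza
    · left
      refine ⟨norm_pos_iff.2 (sub_ne_zero.2 hza), ?_⟩
      rw [mem_ball, dist_eq_norm] at hz
      have h1 : z - a = (z - p) - (a - p) := by ring
      rw [h1]
      have h2 := norm_sub_le (z - p) (a - p)
      linarith
  have hmv : Measurable (fun z => ENNReal.ofReal (v z)) := hv.ennreal_ofReal
  refine (lintegral_mono_set hsub).trans ((lintegral_union_le _ _ _).trans ?_)
  have h3 : ∫⁻ z in ({a} : Set ℂ), ENNReal.ofReal (v z) = 0 := by
    rw [setLIntegral_measure_zero]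
    exact measure_singleton a
  rw [h3, add_zero, polar_set _ hmv a (Ioo 0 4) measurableSet_Ioo (fun r hr => hr.1)]
  have h4 : ∀ r ∈ Ioo (0 : ℝ) 4, ENNReal.ofReal r *
      ∫⁻ θ in Ioo (-Real.pi) Real.pi, ENNReal.ofReal (v (circleMap a r θ)) ≤
        ENNReal.ofReal (4 * (2 * Real.pi * B)) := by
    intro r hr
    rw [circ_lint v a r (hi r hr.1 hr.2) (by
      intro z hz
      rw [abs_of_pos hr.1, mem_sphere, dist_eq_norm] at hz
      exact h0 z (by rw [hz]; exact hr.2)), ← ENNReal.ofReal_mul hr.1.le]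
    apply ENNReal.ofReal_le_ofReal
    have h5 : 2 * Real.pi * Real.circleAverage v a r ≤ 2 * Real.pi * B :=
      mul_le_mul_of_nonneg_left (h r hr.1 hr.2) (by positivity)
    have h6 : 0 ≤ 2 * Real.pi * B := by positivity
    calc r * (2 * Real.pi * Real.circleAverage v a r) ≤ r * (2 * Real.pi * B) :=
          mul_le_mul_of_nonneg_left h5 hr.1.le
      _ ≤ 4 * (2 * Real.pi * B) := mul_le_mul_of_nonneg_right hr.2.le h6
  refine (setLIntegral_mono measurable_const h4).trans ?_
  rw [lintegral_const, Measure.restrict_apply_univ, Real.volume_Ioo,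
    ← ENNReal.ofReal_mul (by positivity)]
  apply ENNReal.ofReal_le_ofReal
  nlinarith

/-- a good radius in `[a, a + 1]` -/
theorem good_r (v : ℂ → ℝ) (hv : Measurable v) (c : ℂ) (a : ℝ) (ha : 1 ≤ a) (B : ℝ) (hB : 0 < B)
    (h0 : ∀ z, ‖z - c‖ ≤ a + 1 → 0 ≤ v z) (hi : ∀ s, CircleIntegrable v c s)
    (h : ∀ p, ‖p - c‖ < a + 2 → ∫⁻ z in ball p 1, ENNReal.ofReal (v z) ≤
      ENNReal.ofReal (32 * Real.pi * B)) :
    ∃ r, a ≤ r ∧ r ≤ a + 1 ∧ Real.circleAverage v c r ≤ 289 * B := by
  have hpi := Real.pi_pos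
  by_contra hcon
  push Not at hcon
  have hmv : Measurable (fun z => ENNReal.ofReal (v z)) := hv.ennreal_ofReal
  have hmn : Measurable (fun z : ℂ => ‖z - c‖) := by fun_prop
  have h1 := loc_glob (fun z => ENNReal.ofReal (v z)) hmv {z : ℂ | ‖z - c‖ ∈ Icc a (a + 1)}
    {z : ℂ | ‖z - c‖ ∈ Ioo (a - 1) (a - 1 + 3)} (hmn measurableSet_Icc) (hmn measurableSet_Ioo)
    (by
      intro z hz p hp
      have hz1 : a ≤ ‖z - c‖ := hz.1
      have hz2 : ‖z - c‖ ≤ a + 1 := hz.2
      have e1 : p - c = (p - z) + (z - c) := by ring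
      have e2 : z - c = (z - p) + (p - c) := by ring
      have h2 := norm_add_le (p - z) (z - c)
      rw [← e1] at h2
      have h3 := norm_add_le (z - p) (p - c)
      rw [← e2, norm_sub_rev z p] at h3
      exact ⟨by linarith, by linarith⟩) (ENNReal.ofReal (32 * Real.pi * B)) (by
      intro p hp
      exact h p (by
        have := hp.2
        have h4 : ‖p - c‖ < a - 1 + 3 := this
        linarith))
  have h2 := vol_ann c (a - 1) (by linarith)
  have h3 : ENNReal.ofReal Real.pi * ∫⁻ z in {z : ℂ | ‖z - c‖ ∈ Icc a (a + 1)},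
      ENNReal.ofReal (v z) ≤ ENNReal.ofReal (32 * Real.pi * B * (6 * Real.pi * (a - 1 + 3))) := by
    rw [ENNReal.ofReal_mul (by positivity)]
    exact h1.trans (by gcongr)
  rw [polar_set _ hmv c (Icc a (a + 1)) measurableSet_Icc (fun r hr => by linarith [hr.1])] at h3
  have h4 : ∀ r ∈ Icc a (a + 1), ENNReal.ofReal (a * (2 * Real.pi * (289 * B))) ≤
      ENNReal.ofReal r *
      ∫⁻ θ in Ioo (-Real.pi) Real.pi, ENNReal.ofReal (v (circleMap c r θ)) := by
    intro r hr
    have hr0 : 0 < r := by linarith [hr.1]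
    rw [circ_lint v c r (hi r) (by
      intro z hz
      rw [abs_of_pos hr0, mem_sphere, dist_eq_norm] at hz
      exact h0 z (by rw [hz]; exact hr.2)), ← ENNReal.ofReal_mul hr0.le]
    apply ENNReal.ofReal_le_ofReal
    have h5 := (hcon r hr.1 hr.2).le
    have h6 : 2 * Real.pi * (289 * B) ≤ 2 * Real.pi * Real.circleAverage v c r :=
      mul_le_mul_of_nonneg_left h5 (by positivity)
    exact mul_le_mul hr.1 h6 (by positivity) hr0.le
  have h5 : ENNReal.ofReal (a * (2 * Real.pi * (289 * B))) ≤ ∫⁻ r in Icc a (a + 1),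
      ENNReal.ofReal r *
      ∫⁻ θ in Ioo (-Real.pi) Real.pi, ENNReal.ofReal (v (circleMap c r θ)) := by
    have h6 : ∫⁻ r in Icc a (a + 1), ENNReal.ofReal (a * (2 * Real.pi * (289 * B))) =
        ENNReal.ofReal (a * (2 * Real.pi * (289 * B))) := by
      rw [lintegral_const, Measure.restrict_apply_univ, Real.volume_Icc, add_sub_cancel_left,
        ENNReal.ofReal_one, mul_one]
    rw [← h6]
    exact setLIntegral_mono' measurableSet_Icc h4
  have h6 : ENNReal.ofReal (Real.pi * (a * (2 * Real.pi * (289 * B)))) ≤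
      ENNReal.ofReal (32 * Real.pi * B * (6 * Real.pi * (a - 1 + 3))) := by
    rw [ENNReal.ofReal_mul hpi.le]
    exact le_trans (by gcongr) h3
  rw [ENNReal.ofReal_le_ofReal_iff (by positivity)] at h6
  have h7 : 0 < Real.pi * Real.pi * B := by positivity
  have h8 : Real.pi * (a * (2 * Real.pi * (289 * B))) = (Real.pi * Real.pi * B) * (578 * a) := by
    ring
  have h9 : 32 * Real.pi * B * (6 * Real.pi * (a - 1 + 3)) =
      (Real.pi * Real.pi * B) * (192 * (a + 2)) := by ring
  rw [h8, h9] at h6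
  have h10 := le_of_mul_le_mul_left h6 h7
  linarith

end Pool.Agent.H289.HE
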