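import Pool.Agent.H466.HE.SB
import Pool.Agent.H466.HP.H10
import Pool.Agent.H289.HE.Disc

/-!
# HE-TLBg: sharp lower bound for the number of all zeros of the backward heat flow
-/

set_option autoImplicit false

open Complex MeasureTheory Set Filter Topology
open scoped ComplexConjugate

namespace Pool.Agent.H289.HE

open Pool.Agent.H466.HF Pool.Agent.H466.LD Pool.Agent.H466.HP Pool.Agent.H466.HD
open Pool.Agent.H466.HE

theorem norm_refl (lam : ℝ) (z : ℂ) : ‖LL gk lam (-conj z)‖ = ‖LL gk lam z‖ := by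
  rw [Flam_fe, Complex.norm_conj]

theorem pt_eq (z : ℂ) : ((z.re : ℝ) : ℂ) + ((z.im : ℝ) : ℂ) * I = z := Complex.re_add_im z

theorem pt_eq' (z : ℂ) : (((-z.re : ℝ)) : ℂ) + ((z.im : ℝ) : ℂ) * I = -conj z := by
  apply Complex.ext <;> simp

/-- the number of the zeros in one disc -/
theorem zeros_disc (ε : ℝ) (hε0 : 0 < ε) (hε1 : ε ≤ 1) (T t μ C W : ℝ) (hC : 0 < C)
    (hLC : 2 * C ≤ Real.log T)
    (hW : (1 + ε) * (4000 / ε ^ 3) + 12 ≤ W) (hΓ : 0 < ‖gz ((t : ℂ) * I)‖)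
    (hd : Differentiable ℂ (LL gk (-μ)))
    (hU1 : ∀ x y : ℝ, 0 ≤ x → x ≤ W → |y - t| ≤ W → ‖LL gk (-μ) ((x : ℂ) + (y : ℂ) * I)‖ ≤
      ‖gz ((t : ℂ) * I)‖ * Real.exp (Real.log T * (x / 2 + 1 / 2) + C))
    (hU2 : ∀ x y : ℝ, 2 ≤ x → x ≤ W → |y - t| ≤ W → ∃ s : ℝ, |s| ≤ 1 ∧
      ‖gz ((t : ℂ) * I)‖ * Real.exp (Real.log T * (x / 2) - C) ≤
        ‖LL gk (-μ) (((x + s : ℝ) : ℂ) + (y : ℂ) * I)‖) :
    ∃ Z : Finset ℂ, (∀ u ∈ Z, LL gk (-μ) u = 0 ∧
        ‖u - (t : ℂ) * I‖ ≤ (1 + ε) * (4000 / ε ^ 3) + 1) ∧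
      ((1 + ε) * (4000 / ε ^ 3) + 2) / Real.pi * (1 - ε) * Real.log T ≤
        ∑ u ∈ Z, (analyticOrderNatAt (LL gk (-μ)) u : ℝ) := by
  have hL : 0 < Real.log T := by linarith
  have hR1 : 4000 ≤ 4000 / ε ^ 3 := by
    rw [le_div_iff₀ (by positivity)]
    have : ε ^ 3 ≤ 1 := pow_le_one₀ hε0.le hε1
    linarith
  have hR0 : 0 < 4000 / ε ^ 3 := by linarith
  have hRa : 4000 / ε ^ 3 ≤ (1 + ε) * (4000 / ε ^ 3) := by nlinarith
  have hP := params ε hε0 hε1 (Real.log T)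
  generalize 4000 / ε ^ 3 = R at *
  generalize (1 + ε) * R = a at *
  have hc : ((t : ℂ) * I).re = 0 := by simp
  have hcim : ((t : ℂ) * I).im = t := by simp
  set H := LL gk (-μ) with hH
  set Γ := ‖gz ((t : ℂ) * I)‖ with hΓdef
  have hΓc : ((Γ : ℂ))⁻¹ ≠ 0 := inv_ne_zero (by exact_mod_cast hΓ.ne')
  set f : ℂ → ℂ := fun z => ((Γ : ℂ))⁻¹ * H z with hf
  have hfd : Differentiable ℂ f := (differentiable_const _).mul hd
  have hfn : ∀ z, ‖f z‖ = Γ⁻¹ * ‖H z‖ := by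
    intro z
    rw [hf]
    simp only [norm_mul, norm_inv, Complex.norm_real]
    rw [Real.norm_of_nonneg hΓ.le]
  have him : ∀ z : ℂ, |z.im - t| ≤ ‖z - (t : ℂ) * I‖ := by
    intro z
    have h1 := Complex.abs_im_le_norm (z - (t : ℂ) * I)
    rw [Complex.sub_im, hcim] at h1
    exact h1
  have hre : ∀ z : ℂ, |z.re| ≤ ‖z - (t : ℂ) * I‖ := by
    intro z
    have h1 := Complex.abs_re_le_norm (z - (t : ℂ) * I)
    rw [Complex.sub_re, hc, sub_zero] at h1
    exact h1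
  have habs : ∀ z : ℂ, ‖H z‖ = ‖H (((|z.re| : ℝ) : ℂ) + ((z.im : ℝ) : ℂ) * I)‖ := by
    intro z
    rcases le_total 0 z.re with h0 | h0
    · rw [abs_of_nonneg h0, pt_eq]
    · rw [abs_of_nonpos h0, pt_eq', hH, norm_refl]
  -- upper bound
  have hUp : ∀ z, ‖z - (t : ℂ) * I‖ ≤ a + 9 → Real.log ‖f z‖ ≤ MM (Real.log T) z := by
    intro z hz
    have hM0 : 0 ≤ MM (Real.log T) z := by
      unfold MM
      positivity
    by_cases h0 : f z = 0
    · rw [h0, norm_zero, Real.log_zero]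
      exact hM0
    · rw [Real.log_le_iff_le_exp (norm_pos_iff.2 h0), hfn, habs,
        inv_mul_le_iff₀ hΓ]
      refine (hU1 |z.re| z.im (abs_nonneg _) (by linarith [hre z]) (by linarith [him z])).trans ?_
      apply mul_le_mul_of_nonneg_left _ hΓ.le
      apply Real.exp_le_exp.2
      unfold MM
      nlinarith
  -- lower bound
  have hLo : ∀ p, ‖p - (t : ℂ) * I‖ < a + 2 → ∃ q, ‖q - p‖ ≤ 3 ∧ f q ≠ 0 ∧
      MM (Real.log T) q - 2 * Real.log T ≤ Real.log ‖f q‖ := by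
    intro p hp
    have hx1 : |p.re| + 2 ≤ W := by linarith [hre p]
    obtain ⟨s, hs1, hs2⟩ := hU2 (|p.re| + 2) p.im (by linarith [abs_nonneg p.re]) hx1
      (by linarith [him p])
    have hs3 := abs_le.1 hs1
    have hpos : 0 ≤ |p.re| + 2 + s := by linarith [abs_nonneg p.re]
    obtain ⟨q, hq1, hq2, hq3⟩ : ∃ q : ℂ, q.im = p.im ∧ |q.re| = |p.re| + 2 + s ∧
        ‖q - p‖ ≤ 3 := by
      rcases le_total 0 p.re with h0 | h0
      · refine ⟨((p.re + 2 + s : ℝ) : ℂ) + ((p.im : ℝ) : ℂ) * I, by simp, ?_, ?_⟩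
        · rw [abs_of_nonneg h0] at hpos ⊢
          have e : (((p.re + 2 + s : ℝ) : ℂ) + ((p.im : ℝ) : ℂ) * I).re = p.re + 2 + s := by
            simp
          rw [e, abs_of_nonneg hpos]
        · have e : ((p.re + 2 + s : ℝ) : ℂ) + ((p.im : ℝ) : ℂ) * I - p = ((2 + s : ℝ) : ℂ) := by
            apply Complex.ext
            · simp
              ring
            · simp
          rw [e, Complex.norm_real, Real.norm_eq_abs, abs_of_nonneg (by linarith)]
          linarith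
      · refine ⟨((-(-p.re + 2 + s) : ℝ) : ℂ) + ((p.im : ℝ) : ℂ) * I, by simp, ?_, ?_⟩
        · rw [abs_of_nonpos h0] at hpos ⊢
          have e : (((-(-p.re + 2 + s) : ℝ) : ℂ) + ((p.im : ℝ) : ℂ) * I).re =
              -(-p.re + 2 + s) := by
            simp
          rw [e, abs_neg, abs_of_nonneg hpos]
        · have e : ((-(-p.re + 2 + s) : ℝ) : ℂ) + ((p.im : ℝ) : ℂ) * I - p =
              ((-(2 + s) : ℝ) : ℂ) := by
            apply Complex.ext
            · simp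
              ring
            · simp
          rw [e, Complex.norm_real, Real.norm_eq_abs, abs_neg, abs_of_nonneg (by linarith)]
          linarith
    have hHq : Γ * Real.exp (Real.log T * ((|p.re| + 2) / 2) - C) ≤ ‖H q‖ := by
      rw [habs q, hq1, hq2]
      exact hs2
    have hfq : Real.exp (Real.log T * ((|p.re| + 2) / 2) - C) ≤ ‖f q‖ := by
      rw [hfn, le_inv_mul_iff₀ hΓ]
      exact hHq
    have hfq0 : 0 < ‖f q‖ := lt_of_lt_of_le (Real.exp_pos _) hfq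
    refine ⟨q, hq3, norm_pos_iff.1 hfq0, ?_⟩
    rw [← Real.log_exp (MM (Real.log T) q - 2 * Real.log T)]
    apply Real.log_le_log (Real.exp_pos _)
    refine le_trans (Real.exp_le_exp.2 ?_) hfq
    unfold MM
    rw [hq2]
    have h5 : Real.log T * (s / 2) ≤ Real.log T * (1 / 2) :=
      mul_le_mul_of_nonneg_left (by linarith) hL.le
    nlinarith
  obtain ⟨q0, -, hq0, -⟩ := hLo ((t : ℂ) * I) (by rw [sub_self, norm_zero]; linarith)
  have hfin := fin_zeros hfd q0 hq0 ((t : ℂ) * I) (a + 1)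
  refine ⟨hfin.toFinset, ?_, ?_⟩
  · intro u hu
    rw [Set.Finite.mem_toFinset] at hu
    obtain ⟨h1, h2⟩ := hu
    refine ⟨?_, h1⟩
    rcases mul_eq_zero.1 h2 with h3 | h3
    · exact absurd h3 hΓc
    · exact h3
  · have h1 := one_disc hfd ((t : ℂ) * I) hc (Real.log T) hL R a (by linarith) hRa hUp hLo
      hfin.toFinset (by
        intro u hu h0
        rw [Set.Finite.mem_toFinset]
        exact ⟨hu, h0⟩)
    have h2 : ∀ u, analyticOrderNatAt f u = analyticOrderNatAt H u := fun u =>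
      ord_const_mul hd _ hΓc u
    simp only [h2] at h1
    exact hP _ hL (Finset.sum_nonneg fun _ _ => Nat.cast_nonneg _) h1

theorem tlbg (h : S_UL) : S_TLBg := by
  intro ε0 hε0
  obtain ⟨ε, hε, hε1, hε2⟩ : ∃ ε : ℝ, 0 < ε ∧ ε ≤ 1 ∧ 2 * ε ≤ ε0 :=
    ⟨min ε0 1 / 2, by positivity, by linarith [min_le_right ε0 1], by
      linarith [min_le_left ε0 1]⟩
  have hR0 : 0 < 4000 / ε ^ 3 := by positivity
  obtain ⟨a, ha⟩ : ∃ a, a = (1 + ε) * (4000 / ε ^ 3) := ⟨_, rfl⟩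
  have ha0 : 0 < a := by
    rw [ha]
    positivity
  obtain ⟨C, δ, T1, hC, hδ, hT1, hUL⟩ := h (a + 12) (by linarith)
  obtain ⟨A, K, μ0, Q, T2, -, -, -, k, hfar⟩ := far_data
  refine ⟨a + 2, δ, max (max T1 T2) (max (Real.exp (2 * C)) (2 * (a + 2) / ε)), by linarith, hδ,
    hT1.trans ((le_max_left _ _).trans (le_max_left _ _)), ?_⟩
  intro T μ hT hμ hμL
  have hTT1 : T1 ≤ T := ((le_max_left _ _).trans (le_max_left _ _)).trans hT
  have hTT2 : T2 ≤ T := ((le_max_right _ _).trans (le_max_left _ _)).trans hT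
  have hTT3 : Real.exp (2 * C) ≤ T := ((le_max_left _ _).trans (le_max_right _ _)).trans hT
  have hTT4 : 2 * (a + 2) / ε ≤ T := ((le_max_right _ _).trans (le_max_right _ _)).trans hT
  have hT0 : 0 < T := lt_of_lt_of_le (Real.exp_pos _) hTT3
  have hLC : 2 * C ≤ Real.log T := by
    rw [Real.le_log_iff_exp_le hT0]
    exact hTT3
  have hL : 0 < Real.log T := by linarith
  have hd : Differentiable ℂ (LL gk (-μ)) := k.differentiable (-μ)
  have hTε : 2 * (a + 2) ≤ ε * T := by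
    rw [div_le_iff₀ hε] at hTT4
    linarith
  set ρ := a + 2 with hρ
  have hρ0 : 0 < ρ := by linarith
  -- the discs
  have hdisc : ∀ j : ℕ, 2 * ρ * (j + 1) ≤ T → ∃ Z : Finset ℂ,
      (∀ u ∈ Z, LL gk (-μ) u = 0 ∧ ‖u - ((T + ρ * (2 * j + 1) : ℝ) : ℂ) * I‖ ≤ a + 1) ∧
      ρ / Real.pi * (1 - ε) * Real.log T ≤
        ∑ u ∈ Z, (analyticOrderNatAt (LL gk (-μ)) u : ℝ) := by
    intro j hj
    have hj0 : (0 : ℝ) ≤ j := Nat.cast_nonneg j
    have ht1 : T ≤ T + ρ * (2 * j + 1) := by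
      have : 0 ≤ ρ * (2 * j + 1) := by positivity
      linarith
    have ht2 : T + ρ * (2 * j + 1) ≤ 2 * T := by nlinarith
    obtain ⟨hU1, hU2⟩ := hUL T (T + ρ * (2 * j + 1)) μ hTT1 ht1 ht2 hμ hμL
    obtain ⟨-, hF⟩ := hfar T (T + ρ * (2 * j + 1)) hTT2 ht1 ht2
    have h1 := zeros_disc ε hε hε1 T (T + ρ * (2 * j + 1)) μ C (a + 12) hC hLC
      (by rw [ha]) hF.Γpos hd hU1 hU2
    rw [← ha] at h1
    exact h1
  choose! Z hZ1 hZ2 using hdisc
  obtain ⟨m, hm⟩ : ∃ m : ℕ, m = ⌊T / (2 * ρ)⌋₊ := ⟨_, rfl⟩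
  have hm1 : (m : ℝ) ≤ T / (2 * ρ) := by
    rw [hm]
    exact Nat.floor_le (by positivity)
  have hm2 : T / (2 * ρ) < m + 1 := by
    rw [hm]
    exact Nat.lt_floor_add_one _
  have hmj : ∀ j ∈ Finset.range m, 2 * ρ * ((j : ℝ) + 1) ≤ T := by
    intro j hj
    have h1 : ((j + 1 : ℕ) : ℝ) ≤ m := by exact_mod_cast Finset.mem_range.1 hj
    push_cast at h1
    have h2 : (j : ℝ) + 1 ≤ T / (2 * ρ) := h1.trans hm1
    rw [le_div_iff₀ (by positivity)] at h2
    linarith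
  refine ⟨(Finset.range m).biUnion Z, ?_, ?_⟩
  · intro z hz
    obtain ⟨j, hj, hzj⟩ := Finset.mem_biUnion.1 hz
    obtain ⟨h1, h2⟩ := hZ1 j (hmj j hj) z hzj
    have h3 := Complex.abs_re_le_norm (z - ((T + ρ * (2 * j + 1) : ℝ) : ℂ) * I)
    have h4 := Complex.abs_im_le_norm (z - ((T + ρ * (2 * j + 1) : ℝ) : ℂ) * I)
    have e1 : (z - ((T + ρ * (2 * j + 1) : ℝ) : ℂ) * I).re = z.re := by simp
    have e2 : (z - ((T + ρ * (2 * j + 1) : ℝ) : ℂ) * I).im = z.im - (T + ρ * (2 * j + 1)) := by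
      simp
    rw [e1] at h3
    rw [e2] at h4
    have h5 := abs_le.1 (h4.trans h2)
    have hj0 : (0 : ℝ) ≤ j := Nat.cast_nonneg j
    have h6 : 0 ≤ ρ * (2 * j) := by positivity
    have h7 := hmj j hj
    refine ⟨h1, by linarith, ?_, ?_⟩
    · nlinarith [h5.1]
    · nlinarith [h5.2]
  · rw [Finset.sum_biUnion]
    · have h1 : (m : ℝ) * (ρ / Real.pi * (1 - ε) * Real.log T) ≤
          ∑ j ∈ Finset.range m, ∑ u ∈ Z j, (analyticOrderNatAt (LL gk (-μ)) u : ℝ) := by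
        have h2 := Finset.card_nsmul_le_sum (Finset.range m)
          (fun j => ∑ u ∈ Z j, (analyticOrderNatAt (LL gk (-μ)) u : ℝ))
          (ρ / Real.pi * (1 - ε) * Real.log T) (fun j hj => hZ2 j (hmj j hj))
        rw [Finset.card_range, nsmul_eq_mul] at h2
        exact h2
      refine le_trans ?_ h1
      have hpi := Real.pi_pos
      have h3 : 0 ≤ ρ / Real.pi * (1 - ε) * Real.log T := by
        have : 0 ≤ 1 - ε := by linarith
        positivity
      have h4 : (T / (2 * ρ) - 1) * (ρ / Real.pi * (1 - ε) * Real.log T) ≤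
          (m : ℝ) * (ρ / Real.pi * (1 - ε) * Real.log T) :=
        mul_le_mul_of_nonneg_right (by linarith) h3
      refine le_trans ?_ h4
      have h5 : (T / (2 * ρ) - 1) * (ρ / Real.pi * (1 - ε) * Real.log T) =
          (T - 2 * ρ) * (1 - ε) * (Real.log T / (2 * Real.pi)) := by
        field_simp
      have h6 : (1 - ε0) * (T * Real.log T / (2 * Real.pi)) =
          (1 - ε0) * T * (Real.log T / (2 * Real.pi)) := by ring
      rw [h5, h6]
      apply mul_le_mul_of_nonneg_right _ (by positivity)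
      have h7 : (1 - ε) * T * (1 - ε) ≤ (T - 2 * ρ) * (1 - ε) :=
        mul_le_mul_of_nonneg_right (by linarith) (by linarith)
      have h8 : 0 ≤ T * ε ^ 2 := by positivity
      nlinarith
    · intro i hi j hj hij
      change Disjoint (Z i) (Z j)
      rw [Finset.disjoint_left]
      intro u hui huj
      obtain ⟨-, h1⟩ := hZ1 i (hmj i (by exact_mod_cast hi)) u hui
      obtain ⟨-, h2⟩ := hZ1 j (hmj j (by exact_mod_cast hj)) u huj
      have h3 := Complex.abs_im_le_norm (u - ((T + ρ * (2 * i + 1) : ℝ) : ℂ) * I)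
      have h4 := Complex.abs_im_le_norm (u - ((T + ρ * (2 * j + 1) : ℝ) : ℂ) * I)
      have e1 : (u - ((T + ρ * (2 * i + 1) : ℝ) : ℂ) * I).im = u.im - (T + ρ * (2 * i + 1)) := by
        simp
      have e2 : (u - ((T + ρ * (2 * j + 1) : ℝ) : ℂ) * I).im = u.im - (T + ρ * (2 * j + 1)) := by
        simp
      rw [e1] at h3
      rw [e2] at h4
      have h5 := abs_le.1 (h3.trans h1)
      have h6 := abs_le.1 (h4.trans h2)
      rcases lt_or_gt_of_ne hij with hlt | hlt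
      · have h7 : (i : ℝ) + 1 ≤ j := by exact_mod_cast hlt
        nlinarith [h5.1, h5.2, h6.1, h6.2]
      · have h7 : (j : ℝ) + 1 ≤ i := by exact_mod_cast hlt
        nlinarith [h5.1, h5.2, h6.1, h6.2]

end Pool.Agent.H289.HE
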